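import Mathlib

/-!
# Truncated convex Morse functions with one critical point whose gradient has valence at least three

The example, in every dimension `n ≥ 1`: `f x = ‖x‖ ^ 2 - (3 / 2) ‖x‖ ^ 4 + ‖x‖ ^ 6`.
-/

set_option autoImplicit false

open scoped RealInnerProductSpace

namespace Pool.Agent.Results.MP_d7bb9e_an.ValenceThree

section defs

variable {n : ℕ}

/-- the truncation `x ↦ max (q, f x)` is convex -/
def TruncConvex (f : EuclideanSpace ℝ (Fin n) → ℝ) (q : ℝ) : Prop :=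
  ConvexOn ℝ Set.univ (fun x => max q (f x))

/-- the levels `q ≥ inf f` such that the truncation at every level `r ≥ q` is convex -/
def levels (f : EuclideanSpace ℝ (Fin n) → ℝ) : Set ℝ :=
  {q | (⨅ x, (f x : EReal)) ≤ (q : EReal) ∧ ∀ r, q ≤ r → TruncConvex f r}

/-- the second derivative (Hessian form) of `f` at `x` -/
noncomputable def hess (f : EuclideanSpace ℝ (Fin n) → ℝ) (x v w : EuclideanSpace ℝ (Fin n)) : ℝ :=
  fderiv ℝ (fderiv ℝ f) x v w

/-- the set of the points where the Hessian is positive definite -/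
def HessPos (f : EuclideanSpace ℝ (Fin n) → ℝ) : Set (EuclideanSpace ℝ (Fin n)) :=
  {x | ∀ v, v ≠ 0 → 0 < hess f x v v}

/-- the critical set -/
def crit (f : EuclideanSpace ℝ (Fin n) → ℝ) : Set (EuclideanSpace ℝ (Fin n)) := {x | gradient f x = 0}

/-- the valence of a map -/
noncomputable def valence (F : EuclideanSpace ℝ (Fin n) → EuclideanSpace ℝ (Fin n)) : ℕ∞ :=
  ⨆ y, (F ⁻¹' {y}).encard

/-- The hypotheses (H), with `s = scl f` the smallest convexity level. -/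
structure Hyp (f : EuclideanSpace ℝ (Fin n) → ℝ) (s : ℝ) : Prop where
  smooth : ContDiff ℝ 2 f
  morse : ∀ x, gradient f x = 0 → ∀ v, (∀ w, hess f x v w = 0) → v = 0
  not_convex : ¬ ConvexOn ℝ Set.univ f
  trunc_convex : (levels f).Nonempty
  scl : IsGLB (levels f) s
  mem_range : s ∈ Set.range f
  regular : ∀ x, f x = s → gradient f x ≠ 0
  hess_pos : {x | s < f x} ⊆ HessPos f

end defs

/-- `f` as a function of the square of the norm -/
noncomputable def P (u : ℝ) : ℝ := u - 3 / 2 * u ^ 2 + u ^ 3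

/-- `f` as a function of the norm -/
noncomputable def h (ρ : ℝ) : ℝ := ρ ^ 2 - 3 / 2 * ρ ^ 4 + ρ ^ 6

/-- the example -/
noncomputable def f (n : ℕ) (x : EuclideanSpace ℝ (Fin n)) : ℝ := P (‖x‖ ^ 2)

theorem f_eq (n : ℕ) (x : EuclideanSpace ℝ (Fin n)) : f n x = h ‖x‖ := by
  unfold f P h; ring

/-- the square of the radius of the last inflection -/
noncomputable def u2 : ℝ := (9 + √21) / 30

/-- the radius of the last inflection -/
noncomputable def ρ2 : ℝ := √u2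

/-- the smallest convexity level -/
noncomputable def s0 : ℝ := P u2

theorem sqrt21 : 4 < √21 ∧ √21 < 5 := by
  constructor
  · rw [Real.lt_sqrt (by norm_num)]; norm_num
  · rw [Real.sqrt_lt' (by norm_num)]; norm_num

theorem u2_eq : 30 * u2 ^ 2 - 18 * u2 + 2 = 0 := by
  unfold u2
  have : √21 ^ 2 = 21 := Real.sq_sqrt (by norm_num)
  nlinarith

theorem u2_bd : 13 / 30 < u2 ∧ u2 < 14 / 30 := by
  have := sqrt21
  unfold u2
  constructor <;> linarith

theorem ρ2_sq : ρ2 ^ 2 = u2 := Real.sq_sqrt (by linarith [u2_bd.1])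

theorem ρ2_pos : 0 < ρ2 := Real.sqrt_pos.2 (by linarith [u2_bd.1])

theorem quad_pos {u : ℝ} (hu : u2 < u) : 0 < 2 - 18 * u + 30 * u ^ 2 := by
  have h1 := u2_eq
  have h2 := u2_bd.1
  nlinarith

theorem quad_nonneg {u : ℝ} (hu : u2 ≤ u) : 0 ≤ 2 - 18 * u + 30 * u ^ 2 := by
  have h1 := u2_eq
  have h2 := u2_bd.1
  nlinarith

/-- between `3 / 10` and the last inflection the profile is concave -/
theorem quad_neg {u : ℝ} (h1 : 3 / 10 < u) (h2 : u < u2) : 2 - 18 * u + 30 * u ^ 2 < 0 := by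
  have h3 := u2_eq
  have h4 := u2_bd.1
  nlinarith

theorem P_strictMono : StrictMono P := by
  intro a b hab
  unfold P
  have : 0 < (b - a) * (1 - 3 / 2 * (a + b) + (a ^ 2 + a * b + b ^ 2)) := by
    apply mul_pos (by linarith)
    nlinarith [sq_nonneg (a - b), sq_nonneg (a + b - 1), sq_nonneg (a + b)]
  nlinarith

theorem deriv_h : deriv h = fun ρ => 2 * ρ - 6 * ρ ^ 3 + 6 * ρ ^ 5 := by
  funext ρ
  have : HasDerivAt h (2 * ρ ^ 1 - 3 / 2 * (4 * ρ ^ 3) + 6 * ρ ^ 5) ρ := by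
    have h1 := hasDerivAt_pow 2 ρ
    have h2 := (hasDerivAt_pow 4 ρ).const_mul (3 / 2)
    have h3 := hasDerivAt_pow 6 ρ
    exact (h1.sub h2).add h3
  rw [this.deriv]; ring

theorem deriv2_h : deriv^[2] h = fun ρ => 2 - 18 * ρ ^ 2 + 30 * (ρ ^ 2) ^ 2 := by
  funext ρ
  rw [Function.iterate_succ_apply, Function.iterate_one, deriv_h]
  have : HasDerivAt (fun ρ : ℝ => 2 * ρ - 6 * ρ ^ 3 + 6 * ρ ^ 5) (2 * 1 - 6 * (3 * ρ ^ 2) + 6 * (5 * ρ ^ 4)) ρ := by
    have h1 := (hasDerivAt_id ρ).const_mul 2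
    have h2 := (hasDerivAt_pow 3 ρ).const_mul 6
    have h3 := (hasDerivAt_pow 5 ρ).const_mul 6
    exact (h1.sub h2).add h3
  rw [this.deriv]; ring

theorem cont_h : Continuous h := by unfold h; fun_prop

theorem diff_h : Differentiable ℝ h := by unfold h; fun_prop

theorem h_convex : ConvexOn ℝ (Set.Ici ρ2) h := by
  apply convexOn_of_deriv2_nonneg (convex_Ici _) cont_h.continuousOn diff_h.differentiableOn
  · rw [deriv_h]
    apply Differentiable.differentiableOn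
    fun_prop
  · intro ρ hρ
    rw [interior_Ici, Set.mem_Ioi] at hρ
    rw [deriv2_h]
    apply quad_nonneg
    rw [← ρ2_sq]
    have := ρ2_pos
    nlinarith

theorem h_mono : MonotoneOn h (Set.Ici 0) := by
  intro a ha b hb hab
  have ha' : 0 ≤ a := ha
  have e : ∀ ρ, h ρ = P (ρ ^ 2) := by intro ρ; unfold h P; ring
  rw [e, e]
  apply P_strictMono.monotone
  nlinarith

theorem h_concave : StrictConcaveOn ℝ (Set.Icc (√(3 / 10)) ρ2) h := by
  apply strictConcaveOn_of_deriv2_neg (convex_Icc _ _) cont_h.continuousOn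
  intro ρ hρ
  rw [interior_Icc, Set.mem_Ioo] at hρ
  rw [deriv2_h]
  have h0 : 0 ≤ √(3 / 10 : ℝ) := Real.sqrt_nonneg _
  have h1 : √(3 / 10 : ℝ) ^ 2 = 3 / 10 := Real.sq_sqrt (by norm_num)
  apply quad_neg
  · nlinarith [hρ.1]
  · rw [← ρ2_sq]
    nlinarith [hρ.2, hρ.1, ρ2_pos]

/-- the truncations above the level `s0` are convex -/
theorem trunc (n : ℕ) {r : ℝ} (hr : s0 ≤ r) : TruncConvex (f n) r := by
  have key : (fun x => max r (f n x)) = fun x => max r (h (max ‖x‖ ρ2)) := by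
    funext x
    rw [f_eq]
    rcases le_total ρ2 ‖x‖ with h1 | h1
    · rw [max_eq_left h1]
    · rw [max_eq_right h1]
      have h2 : h ρ2 = s0 := by
        unfold s0 h P; rw [← ρ2_sq]; ring
      have h3 : h ‖x‖ ≤ h ρ2 := h_mono (norm_nonneg x) ρ2_pos.le h1
      rw [max_eq_left (by linarith), max_eq_left (by linarith)]
  unfold TruncConvex
  rw [key]
  refine ⟨convex_univ, ?_⟩
  intro x _ y _ a b ha hb hab
  simp only [smul_eq_mul]
  have h1 : ‖a • x + b • y‖ ≤ a * ‖x‖ + b * ‖y‖ := by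
    calc ‖a • x + b • y‖ ≤ ‖a • x‖ + ‖b • y‖ := norm_add_le _ _
      _ = a * ‖x‖ + b * ‖y‖ := by rw [norm_smul, norm_smul, Real.norm_of_nonneg ha, Real.norm_of_nonneg hb]
  have hx1 : ‖x‖ ≤ max ‖x‖ ρ2 := le_max_left _ _
  have hx2 : ρ2 ≤ max ‖x‖ ρ2 := le_max_right _ _
  have hy1 : ‖y‖ ≤ max ‖y‖ ρ2 := le_max_left _ _
  have hy2 : ρ2 ≤ max ‖y‖ ρ2 := le_max_right _ _
  have h2 : max ‖a • x + b • y‖ ρ2 ≤ a * max ‖x‖ ρ2 + b * max ‖y‖ ρ2 := by
    apply max_le
    · nlinarith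
    · have : ρ2 = a * ρ2 + b * ρ2 := by rw [← add_mul, hab, one_mul]
      nlinarith
  have h3 : h (max ‖a • x + b • y‖ ρ2) ≤ h (a * max ‖x‖ ρ2 + b * max ‖y‖ ρ2) := by
    apply h_mono _ _ h2
    · exact le_trans ρ2_pos.le (le_max_right _ _)
    · exact le_trans (le_trans ρ2_pos.le (le_max_right _ _)) h2
  have h4 := h_convex.2 hx2 hy2 ha hb hab
  simp only [smul_eq_mul] at h4
  apply max_le
  · have h5 := mul_le_mul_of_nonneg_left (le_max_left r (h (max ‖x‖ ρ2))) ha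
    have h6 := mul_le_mul_of_nonneg_left (le_max_left r (h (max ‖y‖ ρ2))) hb
    have : r = a * r + b * r := by rw [← add_mul, hab, one_mul]
    linarith
  · have h5 := mul_le_mul_of_nonneg_left (le_max_right r (h (max ‖x‖ ρ2))) ha
    have h6 := mul_le_mul_of_nonneg_left (le_max_right r (h (max ‖y‖ ρ2))) hb
    linarith

theorem not_trunc {n : ℕ} (e : EuclideanSpace ℝ (Fin n)) (he : ‖e‖ = 1) {q : ℝ} (hq : q < s0) :
    ¬ TruncConvex (f n) q := by
  intro hc
  have hs : h ρ2 = s0 := by unfold s0 h P; rw [← ρ2_sq]; ring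
  have hlt : √(3 / 10 : ℝ) < ρ2 := by
    apply Real.sqrt_lt_sqrt (by norm_num)
    linarith [u2_bd.1]
  -- a point `a < ρ2` with `h > q` on `[a, ρ2]`
  have h1 : ∀ᶠ ρ in nhds ρ2, q < h ρ := by
    apply cont_h.continuousAt.eventually_const_lt
    rw [hs]; exact hq
  obtain ⟨δ, hδ, hδ1⟩ := Metric.eventually_nhds_iff.mp h1
  obtain ⟨a, ha1, ha2, ha3⟩ : ∃ a, √(3 / 10 : ℝ) < a ∧ a < ρ2 ∧ ρ2 - δ < a := by
    obtain ⟨a, ha, ha'⟩ := exists_between (max_lt hlt (show ρ2 - δ < ρ2 by linarith))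
    exact ⟨a, lt_of_le_of_lt (le_max_left _ _) ha, ha', lt_of_le_of_lt (le_max_right _ _) ha⟩
  have ha0 : 0 ≤ a := le_trans (Real.sqrt_nonneg _) ha1.le
  have hρ0 := ρ2_pos
  have h2 := h_concave.2 (x := a) ⟨ha1.le, ha2.le⟩ (y := ρ2) ⟨hlt.le, le_rfl⟩ ha2.ne
    (show (0 : ℝ) < 1 / 2 by norm_num) (show (0 : ℝ) < 1 / 2 by norm_num) (by norm_num)
  have h3 := hc.2 (Set.mem_univ (a • e)) (Set.mem_univ (ρ2 • e)) (show (0 : ℝ) ≤ 1 / 2 by norm_num)
    (show (0 : ℝ) ≤ 1 / 2 by norm_num) (by norm_num)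
  simp only [smul_eq_mul] at h2 h3
  have e1 : (1 / 2 : ℝ) • a • e + (1 / 2 : ℝ) • ρ2 • e = (1 / 2 * a + 1 / 2 * ρ2) • e := by
    rw [smul_smul, smul_smul, ← add_smul]
  rw [e1, f_eq, f_eq, f_eq, norm_smul, norm_smul, norm_smul, he, Real.norm_of_nonneg (by positivity),
    Real.norm_of_nonneg ha0, Real.norm_of_nonneg hρ0.le, mul_one, mul_one, mul_one] at h3
  have h4 : q < h a := by
    apply hδ1
    rw [Real.dist_eq, abs_lt]
    constructor <;> linarith
  have h5 : q < h ρ2 := by rw [hs]; exact hq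
  rw [max_eq_right h4.le, max_eq_right h5.le] at h3
  have h6 := le_max_right q (h (1 / 2 * a + 1 / 2 * ρ2))
  linarith

theorem deriv_P (u : ℝ) : HasDerivAt P (1 - 3 * u + 3 * u ^ 2) u := by
  have h1 := hasDerivAt_id u
  have h2 := (hasDerivAt_pow 2 u).const_mul (3 / 2)
  have h3 := hasDerivAt_pow 3 u
  refine ((h1.sub h2).add h3).congr_deriv ?_
  norm_num
  ring

theorem hasFDeriv_f (n : ℕ) (x : EuclideanSpace ℝ (Fin n)) :
    HasFDerivAt (f n) ((2 * (1 - 3 * ‖x‖ ^ 2 + 3 * (‖x‖ ^ 2) ^ 2)) • innerSL ℝ x) x := by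
  have h1 := (hasStrictFDerivAt_norm_sq x).hasFDerivAt
  have h2 := (deriv_P (‖x‖ ^ 2)).comp_hasFDerivAt x h1
  refine (h2.congr_fderiv ?_)
  ext v
  simp
  ring

theorem fderiv_f (n : ℕ) : fderiv ℝ (f n) = fun x =>
    (2 * (1 - 3 * ‖x‖ ^ 2 + 3 * (‖x‖ ^ 2) ^ 2)) • innerSL ℝ x := by
  funext x
  exact (hasFDeriv_f n x).fderiv

theorem gradient_f (n : ℕ) (x : EuclideanSpace ℝ (Fin n)) :
    gradient (f n) x = (2 * (1 - 3 * ‖x‖ ^ 2 + 3 * (‖x‖ ^ 2) ^ 2)) • x := by
  apply HasGradientAt.gradient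
  rw [hasGradientAt_iff_hasFDerivAt]
  refine (hasFDeriv_f n x).congr_fderiv ?_
  ext v
  simp

theorem hess_f (n : ℕ) (x v w : EuclideanSpace ℝ (Fin n)) : hess (f n) x v w =
    2 * (1 - 3 * ‖x‖ ^ 2 + 3 * (‖x‖ ^ 2) ^ 2) * ⟪v, w⟫ + 4 * (-3 + 6 * ‖x‖ ^ 2) * ⟪x, v⟫ * ⟪x, w⟫ := by
  unfold hess
  rw [fderiv_f]
  have h1 := (hasStrictFDerivAt_norm_sq x).hasFDerivAt
  have hQ : HasDerivAt (fun u : ℝ => 2 * (1 - 3 * u + 3 * u ^ 2)) (2 * (-3 + 6 * ‖x‖ ^ 2)) (‖x‖ ^ 2) := by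
    have g1 := (hasDerivAt_id (‖x‖ ^ 2)).const_mul 3
    have g2 := (hasDerivAt_pow 2 (‖x‖ ^ 2)).const_mul 3
    have g3 := (((hasDerivAt_const (‖x‖ ^ 2) (1 : ℝ)).sub g1).add g2).const_mul 2
    refine g3.congr_deriv ?_
    norm_num
    ring
  have h2 := hQ.comp_hasFDerivAt x h1
  have h3 : HasFDerivAt (fun x : EuclideanSpace ℝ (Fin n) => innerSL ℝ x) (innerSL ℝ) x :=
    (innerSL ℝ).hasFDerivAt
  have h4 := h2.smul h3
  simp only [Function.comp_def] at h4
  have h5 : fderiv ℝ (fun x : EuclideanSpace ℝ (Fin n) =>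
      (2 * (1 - 3 * ‖x‖ ^ 2 + 3 * (‖x‖ ^ 2) ^ 2)) • innerSL ℝ x) x = _ := h4.fderiv
  rw [h5]
  have e5 : (innerSL ℝ : EuclideanSpace ℝ (Fin n) →L[ℝ] EuclideanSpace ℝ (Fin n) →L[ℝ] ℝ) v w = ⟪v, w⟫ := rfl
  simp only [ContinuousLinearMap.add_apply, ContinuousLinearMap.smul_apply, ContinuousLinearMap.smulRight_apply,
    smul_eq_mul, nsmul_eq_mul, innerSL_apply_apply]
  push_cast
  linear_combination (2 * (1 - 3 * ‖x‖ ^ 2 + 3 * (‖x‖ ^ 2) ^ 2)) * e5

theorem smooth_f (n : ℕ) : ContDiff ℝ 2 (f n) := by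
  unfold f P
  have h1 : ContDiff ℝ 2 (fun x : EuclideanSpace ℝ (Fin n) => ‖x‖ ^ 2) := contDiff_norm_sq ℝ
  exact (h1.sub (contDiff_const.mul (h1.pow 2))).add (h1.pow 3)

theorem pos_factor (u : ℝ) : 0 < 2 * (1 - 3 * u + 3 * u ^ 2) := by nlinarith [sq_nonneg (2 * u - 1)]

theorem gradient_zero (n : ℕ) (x : EuclideanSpace ℝ (Fin n)) : gradient (f n) x = 0 ↔ x = 0 := by
  rw [gradient_f, smul_eq_zero]
  constructor
  · rintro (h | h)
    · exact absurd h (pos_factor _).ne'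
    · exact h
  · exact Or.inr

theorem hyp {n : ℕ} (e : EuclideanSpace ℝ (Fin n)) (he : ‖e‖ = 1) : Hyp (f n) s0 where
  smooth := smooth_f n
  morse := by
    intro x hx v hv
    rw [gradient_zero] at hx
    have := hv v
    rw [hess_f, hx] at this
    simp at this
    exact this
  not_convex := by
    intro hc
    apply not_trunc e he (q := s0 - 1) (by linarith)
    unfold TruncConvex
    exact (convexOn_const (s0 - 1) convex_univ).sup hc
  trunc_convex := by
    refine ⟨s0, ?_, fun r hr => trunc n hr⟩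
    refine iInf_le_of_le 0 ?_
    have : f n 0 = 0 := by simp [f, P]
    rw [this]
    have h1 : 0 < s0 := by
      have : P 0 < P u2 := P_strictMono (by linarith [u2_bd.1])
      have h0 : P 0 = 0 := by simp [P]
      rw [h0] at this
      exact this
    exact_mod_cast h1.le
  scl := by
    constructor
    · intro q hq
      by_contra hc
      push Not at hc
      exact not_trunc e he hc (hq.2 q le_rfl)
    · intro b hb
      apply hb
      refine ⟨?_, fun r hr => trunc n hr⟩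
      refine iInf_le_of_le 0 ?_
      have : f n 0 = 0 := by simp [f, P]
      rw [this]
      have h1 : 0 < s0 := by
        have : P 0 < P u2 := P_strictMono (by linarith [u2_bd.1])
        have h0 : P 0 = 0 := by simp [P]
        rw [h0] at this
        exact this
      exact_mod_cast h1.le
  mem_range := by
    refine ⟨ρ2 • e, ?_⟩
    unfold f s0
    rw [norm_smul, he, mul_one, Real.norm_of_nonneg ρ2_pos.le, ρ2_sq]
  regular := by
    intro x hx h0
    rw [gradient_zero] at h0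
    rw [h0] at hx
    have h1 : 0 < s0 := by
      have : P 0 < P u2 := P_strictMono (by linarith [u2_bd.1])
      have h0 : P 0 = 0 := by simp [P]
      rw [h0] at this
      exact this
    have : f n 0 = 0 := by simp [f, P]
    linarith
  hess_pos := by
    intro x hx v hv
    have hx' : s0 < f n x := hx
    have hu : u2 < ‖x‖ ^ 2 := P_strictMono.lt_iff_lt.mp hx'
    have hv' : 0 < ‖v‖ ^ 2 := by positivity
    have hcs : ⟪x, v⟫ ^ 2 ≤ ‖x‖ ^ 2 * ‖v‖ ^ 2 := by
      have := abs_real_inner_le_norm x v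
      have h1 := abs_nonneg ⟪x, v⟫
      rw [← sq_abs ⟪x, v⟫, ← mul_pow]
      exact pow_le_pow_left₀ h1 this 2
    have hcs0 := sq_nonneg ⟪x, v⟫
    rw [hess_f, real_inner_self_eq_norm_sq]
    set u := ‖x‖ ^ 2 with hu'
    set z := ‖v‖ ^ 2 with hz'
    have e1 : 2 * (1 - 3 * u + 3 * u ^ 2) * z + 4 * (-3 + 6 * u) * ⟪x, v⟫ * ⟪x, v⟫ =
      2 * (1 - 3 * u + 3 * u ^ 2) * z + 4 * (-3 + 6 * u) * ⟪x, v⟫ ^ 2 := by ring
    rw [e1]
    rcases le_or_gt 0 (-3 + 6 * u) with h | h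
    · have h1 : 0 < 2 * (1 - 3 * u + 3 * u ^ 2) * z := mul_pos (pos_factor u) hv'
      have h2 : 0 ≤ 4 * (-3 + 6 * u) * ⟪x, v⟫ ^ 2 := by positivity
      linarith
    · have h1 : 0 < (2 - 18 * u + 30 * u ^ 2) * z := mul_pos (quad_pos hu) hv'
      have h2 : (-3 + 6 * u) * (u * z) ≤ (-3 + 6 * u) * ⟪x, v⟫ ^ 2 := mul_le_mul_of_nonpos_left hcs h.le
      nlinarith

/-- the derivative of the profile takes the value `2 / 5` three times -/
theorem three : ∃ a b c : ℝ, 0 < a ∧ a < b ∧ b < c ∧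
    (∀ ρ ∈ ({a, b, c} : Set ℝ), 2 * (1 - 3 * ρ ^ 2 + 3 * (ρ ^ 2) ^ 2) * ρ = 2 / 5) := by
  let k : ℝ → ℝ := fun ρ => 2 * (1 - 3 * ρ ^ 2 + 3 * (ρ ^ 2) ^ 2) * ρ
  have hk : Continuous k := by unfold k; fun_prop
  have h1 : (2 / 5 : ℝ) ∈ k '' Set.Ioo 0 (38 / 100) := by
    apply intermediate_value_Ioo (by norm_num) hk.continuousOn
    constructor <;> norm_num [k]
  have h2 : (2 / 5 : ℝ) ∈ k '' Set.Ioo (38 / 100) (67 / 100) := by
    apply intermediate_value_Ioo' (by norm_num) hk.continuousOn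
    constructor <;> norm_num [k]
  have h3 : (2 / 5 : ℝ) ∈ k '' Set.Ioo (67 / 100) 1 := by
    apply intermediate_value_Ioo (by norm_num) hk.continuousOn
    constructor <;> norm_num [k]
  obtain ⟨a, ha, ha'⟩ := h1
  obtain ⟨b, hb, hb'⟩ := h2
  obtain ⟨c, hc, hc'⟩ := h3
  refine ⟨a, b, c, ha.1, lt_trans ha.2 hb.1, lt_trans hb.2 hc.1, ?_⟩
  rintro ρ (rfl | rfl | rfl)
  · exact ha'
  · exact hb'
  · exact hc'

/-- In every dimension `n ≥ 1` there is a function satisfying (H) with exactly one critical point, for which the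
valence of the gradient is at least three. So the first equality in question fails. -/
theorem result (n : ℕ) (hn : 1 ≤ n) : ∃ (f : EuclideanSpace ℝ (Fin n) → ℝ) (s : ℝ), Hyp f s ∧
    (crit f).encard = 1 ∧ 3 ≤ valence (gradient f) ∧ valence (gradient f) ≠ (crit f).encard := by
  let e : EuclideanSpace ℝ (Fin n) := EuclideanSpace.single ⟨0, hn⟩ 1
  have he : ‖e‖ = 1 := by simp [e]
  have h1 : (crit (f n)).encard = 1 := by
    rw [Set.encard_eq_one]
    refine ⟨0, ?_⟩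
    ext x
    exact gradient_zero n x
  have h3 : 3 ≤ valence (gradient (f n)) := by
    obtain ⟨a, b, c, ha, hab, hbc, hk⟩ := three
    have hsub : ({a • e, b • e, c • e} : Set (EuclideanSpace ℝ (Fin n))) ⊆
        gradient (f n) ⁻¹' {(2 / 5 : ℝ) • e} := by
      have key : ∀ ρ ∈ ({a, b, c} : Set ℝ), 0 < ρ → gradient (f n) (ρ • e) = (2 / 5 : ℝ) • e := by
        intro ρ hρ hρ0
        rw [gradient_f, norm_smul, he, mul_one, Real.norm_of_nonneg hρ0.le, smul_smul, hk ρ hρ]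
      rintro x (rfl | rfl | rfl)
      · exact key a (by simp) ha
      · exact key b (by simp) (by linarith)
      · exact key c (by simp) (by linarith)
    have hinj : Function.Injective (fun t : ℝ => t • e) := by
      intro t t' h
      have : e ≠ 0 := by
        intro h0; rw [h0, norm_zero] at he; norm_num at he
      exact smul_left_injective ℝ this h
    have hcard : ({a • e, b • e, c • e} : Set (EuclideanSpace ℝ (Fin n))).encard = 3 := by
      rw [Set.encard_eq_three]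
      exact ⟨_, _, _, fun h => hab.ne (hinj h), fun h => (hab.trans hbc).ne (hinj h), fun h => hbc.ne (hinj h), rfl⟩
    calc (3 : ℕ∞) = ({a • e, b • e, c • e} : Set (EuclideanSpace ℝ (Fin n))).encard := hcard.symm
      _ ≤ (gradient (f n) ⁻¹' {(2 / 5 : ℝ) • e}).encard := Set.encard_le_encard hsub
      _ ≤ valence (gradient (f n)) := le_iSup (fun y => (gradient (f n) ⁻¹' {y}).encard) _
  refine ⟨f n, s0, hyp e he, h1, h3, ?_⟩
  rw [h1]
  intro h
  rw [h] at h3
  exact absurd h3 (by decide)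

end Pool.Agent.Results.MP_d7bb9e_an.ValenceThree
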